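import Mathlib

set_option autoImplicit false

/-!
# Partial derivatives of functions on an open subset of `ℝ^m`, Jacobi's formula, integral of a
partial derivative
-/

namespace Pool.Agent.IDX.Geo

open Finset Matrix MeasureTheory
open scoped ContDiff

/-- the `i`-th partial derivative -/
noncomputable def pd {m : ℕ} (i : Fin m) (f : EuclideanSpace ℝ (Fin m) → ℝ)
    (u : EuclideanSpace ℝ (Fin m)) : ℝ := fderiv ℝ f u (EuclideanSpace.single i 1)

section pder

variable {m : ℕ} {U : Set (EuclideanSpace ℝ (Fin m))} {u : EuclideanSpace ℝ (Fin m)}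
  {f g : EuclideanSpace ℝ (Fin m) → ℝ}

theorem diffAt (hU : IsOpen U) (hf : ContDiffOn ℝ ∞ f U) (hu : u ∈ U) :
    DifferentiableAt ℝ f u :=
  (hf.contDiffAt (hU.mem_nhds hu)).differentiableAt (by norm_num)

theorem pd_congr (hU : IsOpen U) (hu : u ∈ U) (h : ∀ y ∈ U, f y = g y) (i : Fin m) :
    pd i f u = pd i g u := by
  have : f =ᶠ[nhds u] g := Filter.eventually_of_mem (hU.mem_nhds hu) h
  unfold pd
  rw [this.fderiv_eq]

theorem pd_smooth (hU : IsOpen U) (hf : ContDiffOn ℝ ∞ f U) (i : Fin m) :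
    ContDiffOn ℝ ∞ (pd i f) U := by
  have h1 : ContDiffOn ℝ ∞ (fderiv ℝ f) U := hf.fderiv_of_isOpen hU (by norm_num)
  exact h1.clm_apply contDiffOn_const

theorem pd_add (hf : DifferentiableAt ℝ f u) (hg : DifferentiableAt ℝ g u) (i : Fin m) :
    pd i (fun y => f y + g y) u = pd i f u + pd i g u := by
  unfold pd
  rw [fderiv_fun_add hf hg]
  rfl

theorem pd_mul (hf : DifferentiableAt ℝ f u) (hg : DifferentiableAt ℝ g u) (i : Fin m) :
    pd i (fun y => f y * g y) u = f u * pd i g u + g u * pd i f u := by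
  unfold pd
  rw [fderiv_fun_mul hf hg]
  rfl

theorem pd_sum {ι : Type*} (s : Finset ι) (F : ι → EuclideanSpace ℝ (Fin m) → ℝ)
    (hF : ∀ a ∈ s, DifferentiableAt ℝ (F a) u) (i : Fin m) :
    pd i (fun y => ∑ a ∈ s, F a y) u = ∑ a ∈ s, pd i (F a) u := by
  unfold pd
  rw [fderiv_fun_sum hF]
  simp

theorem pd_const (c : ℝ) (i : Fin m) : pd i (fun _ => c) u = 0 := by
  unfold pd
  simp

/-- symmetry of the second derivatives -/
theorem pd_comm (hU : IsOpen U) (hf : ContDiffOn ℝ ∞ f U) (hu : u ∈ U) (i j : Fin m) :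
    pd i (pd j f) u = pd j (pd i f) u := by
  have h0 : ContDiffAt ℝ ∞ f u := hf.contDiffAt (hU.mem_nhds hu)
  have h1 : ContDiffAt ℝ ∞ (fderiv ℝ f) u :=
    (hf.fderiv_of_isOpen hU (by norm_num)).contDiffAt (hU.mem_nhds hu)
  have h2 : DifferentiableAt ℝ (fderiv ℝ f) u := h1.differentiableAt (by norm_num)
  have h3 : IsSymmSndFDerivAt ℝ f u := by
    apply h0.isSymmSndFDerivAt
    rw [minSmoothness_of_isRCLikeNormedField]
    exact ENat.LEInfty.out
  have key : ∀ a b : EuclideanSpace ℝ (Fin m),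
      fderiv ℝ (fun y => fderiv ℝ f y b) u a = fderiv ℝ (fderiv ℝ f) u a b := by
    intro a b
    rw [fderiv_clm_apply h2 (differentiableAt_const b)]
    simp
  unfold pd
  rw [key, key]
  exact h3 _ _

/-- the integral of a partial derivative of a function with compact support -/
theorem integral_pd (h : ContDiff ℝ 1 f) (hc : HasCompactSupport f) (i : Fin m) :
    ∫ u, pd i f u = 0 := by
  have h1 : Continuous (fun u => fderiv ℝ f u (EuclideanSpace.single i 1)) :=
    (h.continuous_fderiv (by norm_num)).clm_apply continuous_const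
  have h2 : HasCompactSupport (fun u => fderiv ℝ f u (EuclideanSpace.single i 1)) :=
    hc.fderiv_apply ℝ _
  have := integral_mul_fderiv_eq_neg_fderiv_mul_of_integrable
    (μ := (volume : Measure (EuclideanSpace ℝ (Fin m)))) (f := fun _ => (1 : ℝ)) (g := f)
    (v := EuclideanSpace.single i 1) (by simp)
    (by simpa using h1.integrable_of_hasCompactSupport h2)
    (by simpa using h.continuous.integrable_of_hasCompactSupport hc)
    (fun x _ => differentiableAt_const _)
    (fun x _ => (h.differentiable (by norm_num)) x)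
  unfold pd
  simpa using this

end pder

section jacobi

variable {m : ℕ} {U : Set (EuclideanSpace ℝ (Fin m))} {u : EuclideanSpace ℝ (Fin m)}
variable {ι : Type*} [Fintype ι] [DecidableEq ι]

theorem det_updateCol_expand (G : Matrix ι ι ℝ) (b : ι → ℝ) (c : ι) :
    ∑ σ : Equiv.Perm ι, ((Equiv.Perm.sign σ : ℤ) : ℝ) * ((∏ j ∈ univ.erase c, G (σ j) j) * b (σ c)) =
      ∑ i, adjugate G c i * b i := by
  have h1 : (G.updateCol c b).det = ∑ i, adjugate G c i * b i := by
    rw [← cramer_apply, cramer_eq_adjugate_mulVec]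
    rfl
  rw [← h1, det_apply']
  refine Finset.sum_congr rfl fun σ _ => ?_
  congr 1
  rw [← Finset.mul_prod_erase univ _ (mem_univ c), mul_comm]
  congr 1
  · simp
  · refine Finset.prod_congr rfl fun j hj => ?_
    rw [updateCol_ne (Finset.ne_of_mem_erase hj)]

theorem hasFDerivAt_det {E : Type*} [NormedAddCommGroup E] [NormedSpace ℝ E]
    {G : E → Matrix ι ι ℝ} {dG : ι → ι → E →L[ℝ] ℝ} {x : E}
    (h : ∀ i j, HasFDerivAt (fun y => G y i j) (dG i j) x) :
    HasFDerivAt (fun y => (G y).det) (∑ c, ∑ i, (adjugate (G x)) c i • dG i c) x := by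
  have h1 : HasFDerivAt (fun y => ∑ σ : Equiv.Perm ι, ((Equiv.Perm.sign σ : ℤ) : ℝ) *
      ∏ i, G y (σ i) i)
      (∑ σ : Equiv.Perm ι, ((Equiv.Perm.sign σ : ℤ) : ℝ) •
        ∑ i, (∏ j ∈ univ.erase i, G x (σ j) j) • dG (σ i) i) x := by
    refine HasFDerivAt.fun_sum fun σ _ => ?_
    refine HasFDerivAt.const_mul ?_ _
    exact HasFDerivAt.finsetProd fun i _ => h (σ i) i
  have h2 : (fun y => (G y).det) = fun y => ∑ σ : Equiv.Perm ι, ((Equiv.Perm.sign σ : ℤ) : ℝ) *
      ∏ i, G y (σ i) i := by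
    funext y
    rw [det_apply']
  rw [h2]
  refine h1.congr_fderiv ?_
  ext v
  simp only [_root_.sum_apply, _root_.smul_apply, smul_eq_mul]
  simp only [Finset.mul_sum]
  rw [Finset.sum_comm]
  refine Finset.sum_congr rfl fun c _ => ?_
  exact det_updateCol_expand (G x) (fun i => dG i c v) c

/-- Jacobi's formula for partial derivatives -/
theorem pd_det {G : EuclideanSpace ℝ (Fin m) → Matrix ι ι ℝ}
    (h : ∀ i j, DifferentiableAt ℝ (fun y => G y i j) u) (k : Fin m) :
    pd k (fun y => (G y).det) u = ∑ i, ∑ j, adjugate (G u) i j * pd k (fun y => G y j i) u := by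
  have h1 := hasFDerivAt_det (G := G) (x := u) fun i j => (h i j).hasFDerivAt
  unfold pd
  rw [h1.fderiv]
  simp only [_root_.sum_apply, _root_.smul_apply, smul_eq_mul]

/-- the determinant of a matrix of smooth functions -/
theorem contDiffOn_det {G : EuclideanSpace ℝ (Fin m) → Matrix ι ι ℝ}
    (h : ∀ i j, ContDiffOn ℝ ∞ (fun y => G y i j) U) :
    ContDiffOn ℝ ∞ (fun y => (G y).det) U := by
  have h2 : (fun y => (G y).det) = fun y => ∑ σ : Equiv.Perm ι, ((Equiv.Perm.sign σ : ℤ) : ℝ) *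
      ∏ i, G y (σ i) i := by
    funext y
    rw [det_apply']
  rw [h2]
  refine ContDiffOn.sum fun σ _ => ?_
  refine contDiffOn_const.mul ?_
  exact contDiffOn_prod fun i _ => h (σ i) i

/-- the inverse of a matrix of smooth functions -/
theorem contDiffOn_inv {G : EuclideanSpace ℝ (Fin m) → Matrix ι ι ℝ}
    (h : ∀ i j, ContDiffOn ℝ ∞ (fun y => G y i j) U) (hd : ∀ y ∈ U, (G y).det ≠ 0) (i j : ι) :
    ContDiffOn ℝ ∞ (fun y => (G y)⁻¹ i j) U := by
  have h1 : ∀ y, (G y)⁻¹ i j = ((G y).det)⁻¹ * ((G y).updateRow j (Pi.single i 1)).det := by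
    intro y
    rw [Matrix.inv_def, Matrix.smul_apply, adjugate_apply, Ring.inverse_eq_inv', smul_eq_mul]
  have h2 : ContDiffOn ℝ ∞ (fun y => ((G y).updateRow j (Pi.single i 1)).det) U := by
    refine contDiffOn_det fun a b => ?_
    by_cases hab : a = j
    · subst hab
      simp only [updateRow_self]
      exact contDiffOn_const
    · simp only [ne_eq, hab, not_false_eq_true, updateRow_ne]
      exact h a b
  exact (((contDiffOn_det h).inv hd).mul h2).congr fun y _ => h1 y

end jacobi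

end Pool.Agent.IDX.Geo
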